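import Pool.Agent.Y947.RL.Stm3
import Pool.Agent.Y26.RL.FX
import Pool.Agent.Y929.RL.Gen

/-!
# Project RL, third group: FX and GEN with the weaker assumptions (adapted from the modules of
helper26 and helper929)
-/

set_option autoImplicit false

open Finset Polynomial Module Pool.Agent.H388SL Pool.Agent.Y947.DL Pool.Agent.Y947.RL

namespace Pool.Agent.Y429.RL

open Pool.Agent.Y26.RL (fix_of_eq card_Gset one_mem fix_congr fix_pow pow_mod)
open Pool.Agent.Y929.RL (pow_cong pow_inj)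

theorem fx2 : S_TR → T_FX := by
  intro _ K _ _ m ζ hm0 hζ0
  refine ⟨?_, ?_, ?_, ?_⟩
  · intro β u _ hu σ τ hτ hst
    unfold cls at hτ
    rw [mem_filter] at hτ
    exact hu (fix_of_eq σ τ hτ.2 hst.symm)
  · intro p hp hpm
    exact card_Gset hm0 hp hpm
  · intro β p hp hpm hp2 hex
    have hH : Hset m p ζ β = {1} := by
      rw [eq_singleton_iff_unique_mem]
      refine ⟨one_mem hm0 hp hpm ζ β, fun v hv => ?_⟩
      by_contra hv1
      obtain ⟨u, hu, hnf⟩ := hex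
      apply hnf
      obtain ⟨hv2, hvf⟩ : v ∈ Gset m p ∧ Fix ζ β v := by
        unfold Hset at hv
        simp only [mem_filter] at hv
        exact hv
      obtain ⟨e, rfl⟩ := hpm
      have hm := hm0
      have he : 0 < e := Nat.pos_of_ne_zero (by rintro rfl; simp at hm)
      have hpe : p ∣ e := by
        rw [pow_two] at hp2
        exact Nat.dvd_of_mul_dvd_mul_left hp.pos hp2
      have he1 : 1 < e := lt_of_lt_of_le hp.one_lt (Nat.le_of_dvd he hpe)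
      have hform : ∀ w ∈ Gset (p * e) p, ∃ j < p, w = 1 + j * e := by
        intro w hw
        unfold Gset at hw
        rw [Nat.mul_div_cancel_left e hp.pos] at hw
        simp only [mem_filter, mem_range] at hw
        obtain ⟨h1, _, h2⟩ := hw
        refine ⟨w / e, Nat.div_lt_of_lt_mul (by rwa [mul_comm]), ?_⟩
        have h3 : w % e = 1 := by
          have : w % e = 1 % e := h2
          rw [this, Nat.mod_eq_of_lt he1]
        have h4 := Nat.mod_add_div w e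
        rw [h3] at h4
        rw [mul_comm]
        exact h4.symm
      obtain ⟨j, hj, rfl⟩ := hform v hv2
      obtain ⟨i, _, rfl⟩ := hform u hu
      have hj0 : 0 < j := Nat.pos_of_ne_zero (by rintro rfl; simp at hv1)
      have hjp : Nat.Coprime j p := by
        rw [Nat.coprime_comm, hp.coprime_iff_not_dvd]
        exact Nat.not_dvd_of_pos_of_lt hj0 hj
      obtain ⟨k0, _, hk0⟩ := Nat.exists_mul_mod_eq_one_of_coprime hjp hp.one_lt
      have hk1 : j * k0 ≡ 1 [MOD p] := by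
        unfold Nat.ModEq
        rw [hk0, Nat.mod_eq_of_lt hp.one_lt]
      have h5 : (k0 * i) * j ≡ i [MOD p] := by
        have := hk1.mul_right i
        rw [one_mul] at this
        have e1 : k0 * i * j = j * k0 * i := by ring
        rw [e1]
        exact this
      have h6 : (k0 * i) * j * e ≡ i * e [MOD p * e] := h5.mul_right' e
      have h7 := pow_mod (j := j) hpe (k0 * i)
      have h8 : (1 + j * e) ^ (k0 * i) ≡ 1 + i * e [MOD p * e] :=
        h7.trans ((Nat.ModEq.refl 1).add h6)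
      exact fix_congr (hζ0.pow_eq_one) h8 (fix_pow hvf _)
    rw [hH, card_singleton]
  · intro β p hp hpm
    exact card_pos.2 ⟨1, one_mem hm0 hp hpm ζ β⟩

theorem gen2 : S_TR → T_GEN := by
  classical
  intro hTR K _ _ m ζ α hctx ε hε p q s t u hp hq hs ht hsut hne
  obtain ⟨-, -, hTR3⟩ := hTR K m ζ hctx.hm hctx.hζ
  have hm := hctx.hm
  have hprim : ∀ σ : K →ₐ[ℚ] ℂ, IsPrimitiveRoot (σ ζ) m := fun σ =>
    hctx.hζ.map_of_injective σ.injective
  have hone : ∀ σ : K →ₐ[ℚ] ℂ, (σ ζ) ^ m = 1 := fun σ => (hprim σ).pow_eq_one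
  -- `u` is coprime to `m`
  have hu : u.Coprime m := by
    have h1 : Nat.gcd s m = Nat.gcd (u * t) m := Nat.ModEq.gcd_eq hsut
    rw [show Nat.gcd s m = 1 from hs] at h1
    exact Nat.Coprime.coprime_mul_right (show Nat.Coprime (u * t) m from h1.symm)
  have hφ : 0 < Nat.totient m := Nat.totient_pos.2 hm
  -- the inverse of `u`
  obtain ⟨u', hu'⟩ : ∃ u' : ℕ, u' * u ≡ 1 [MOD m] := by
    refine ⟨u ^ (Nat.totient m - 1), ?_⟩
    rw [← pow_succ, Nat.sub_add_cancel hφ]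
    exact Nat.ModEq.pow_totient hu
  have hu'c : u'.Coprime m := by
    have h1 : Nat.gcd (u' * u) m = Nat.gcd 1 m := Nat.ModEq.gcd_eq hu'
    rw [Nat.gcd_one_left] at h1
    exact Nat.Coprime.coprime_mul_right (show Nat.Coprime (u' * u) m from h1)
  obtain ⟨D, hD⟩ : ∃ D : ℝ, D = (finrank ℚ K : ℝ) / Nat.totient m := ⟨_, rfl⟩
  have hcard : ∀ ω : ℂ, IsPrimitiveRoot ω m → ((cls ζ ω).card : ℝ) = D := by
    intro ω hω
    have h1 := hTR3 ω hω
    have h2 : ((cls ζ ω).card : ℝ) * Nat.totient m = finrank ℚ K := by exact_mod_cast h1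
    have h3 : (Nat.totient m : ℝ) ≠ 0 := by exact_mod_cast hφ.ne'
    rw [hD, eq_div_iff h3, h2]
  -- the relation
  have hrel : ∀ σ τ : K →ₐ[ℚ] ℂ, (σ ζ) ^ s = (τ ζ) ^ t ↔ τ ζ = (σ ζ) ^ u := by
    intro σ τ
    have h1 : (σ ζ) ^ s = ((σ ζ) ^ u) ^ t := by
      rw [← pow_mul]
      exact pow_cong (hone σ) hsut
    have h2 : ((σ ζ) ^ u) ^ m = 1 := by rw [← pow_mul, mul_comm, pow_mul, hone, one_pow]
    rw [h1]
    constructor
    · intro h
      exact pow_inj hm (hone τ) h2 ht h.symm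
    · intro h
      rw [h]
  have hrel2 : ∀ σ τ : K →ₐ[ℚ] ℂ, τ ζ = (σ ζ) ^ u ↔ σ ζ = (τ ζ) ^ u' := by
    intro σ τ
    constructor
    · intro h
      rw [h, ← pow_mul, pow_cong (hone σ) (show u * u' ≡ 1 [MOD m] by rw [mul_comm]; exact hu'),
        pow_one]
    · intro h
      rw [h, ← pow_mul, pow_cong (hone τ) hu', pow_one]
  -- the energy as a sum over the partners
  have hEP : EP ζ α ε p q s t = ∑ σ : K →ₐ[ℚ] ℂ, ∑ τ ∈ cls ζ ((σ ζ) ^ u),
      -Real.log ‖1 - ww α ε σ ^ p * starRingEnd ℂ (ww α ε τ ^ q)‖ := by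
    unfold EP cls
    refine Finset.sum_congr rfl fun σ _ => ?_
    rw [Finset.sum_filter]
    refine Finset.sum_congr rfl fun τ _ => ?_
    by_cases h : τ ζ = (σ ζ) ^ u
    · rw [if_pos ((hrel σ τ).2 h), if_pos h]
    · rw [if_neg (fun h' => h ((hrel σ τ).1 h')), if_neg h]
  have hnz : ∀ σ : K →ₐ[ℚ] ℂ, ∀ τ ∈ cls ζ ((σ ζ) ^ u), ‖(σ α) ^ p - (τ α) ^ q‖ ≠ 0 :=
    fun σ τ hτ => norm_ne_zero_iff.mpr (sub_ne_zero.mpr (hne σ τ hτ))
  have h1 : ∀ σ ∈ (Finset.univ : Finset (K →ₐ[ℚ] ℂ)), ∀ τ ∈ cls ζ ((σ ζ) ^ u),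
      -Real.log ‖1 - ww α ε σ ^ p * starRingEnd ℂ (ww α ε τ ^ q)‖ ≤
      -Real.log ‖(σ α) ^ p - (τ α) ^ q‖ + p * (Real.log (max 1 ‖σ α‖) + ε σ) +
        q * (Real.log (max 1 ‖τ α‖) + ε τ) := by
    intro σ _ τ hτ'
    rw [ww_mul α ε σ τ hp.ne' hq.ne']
    have hσ := hε σ
    have hτ := hε τ
    have hs0 : 0 ≤ (1 - ε σ) ^ p * (1 - ε τ) ^ q :=
      mul_nonneg (pow_nonneg (by linarith) _) (pow_nonneg (by linarith) _)
    have hs1 : (1 - ε σ) ^ p * (1 - ε τ) ^ q < 1 := by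
      have h2 : (1 - ε σ) ^ p < 1 := pow_lt_one₀ (by linarith) (by linarith) hp.ne'
      have h3 : (1 - ε τ) ^ q ≤ 1 := pow_le_one₀ (by linarith) (by linarith)
      have h4 : 0 ≤ (1 - ε σ) ^ p := pow_nonneg (by linarith) _
      nlinarith
    have hne' : σ (α ^ p) ≠ τ (α ^ q) := by
      rw [map_pow, map_pow]
      exact hne σ τ hτ'
    have h2 := pair_log hne' hs0 hs1
    have h3 := one_sub_mul_pow_le hσ.1.le (by linarith) hτ.1.le (by linarith) p q
    rw [map_pow σ, map_pow τ, log_max_pow, log_max_pow, ← map_pow σ, ← map_pow τ] at h2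
    rw [← map_pow σ, ← map_pow τ]
    linarith
  have h2 := Finset.sum_le_sum fun σ hσ => Finset.sum_le_sum fun τ hτ => h1 σ hσ τ hτ
  rw [hEP]
  refine h2.trans (le_of_eq ?_)
  -- the logarithm of the product
  have hlog : Real.log (∏ σ : K →ₐ[ℚ] ℂ, ∏ τ ∈ cls ζ ((σ ζ) ^ u), ‖(σ α) ^ p - (τ α) ^ q‖) =
      ∑ σ : K →ₐ[ℚ] ℂ, ∑ τ ∈ cls ζ ((σ ζ) ^ u), Real.log ‖(σ α) ^ p - (τ α) ^ q‖ := by
    rw [Real.log_prod]
    · exact Finset.sum_congr rfl fun σ _ => Real.log_prod fun τ hτ => hnz σ τ hτ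
    · intro σ _
      exact Finset.prod_ne_zero_iff.mpr fun τ hτ => hnz σ τ hτ
  -- the terms with `σ`
  have hA : ∑ σ : K →ₐ[ℚ] ℂ, ∑ τ ∈ cls ζ ((σ ζ) ^ u), p * (Real.log (max 1 ‖σ α‖) + ε σ) =
      D * (p * (lam α + ∑ σ, ε σ)) := by
    have h3 : ∀ σ : K →ₐ[ℚ] ℂ, ∑ τ ∈ cls ζ ((σ ζ) ^ u), p * (Real.log (max 1 ‖σ α‖) + ε σ) =
        D * (p * (Real.log (max 1 ‖σ α‖) + ε σ)) := by
      intro σ
      rw [Finset.sum_const, nsmul_eq_mul, hcard _ ((hprim σ).pow_of_coprime u hu)]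
    rw [Finset.sum_congr rfl fun σ _ => h3 σ, ← Finset.mul_sum, ← Finset.mul_sum,
      Finset.sum_add_distrib]
    rfl
  -- the terms with `τ`
  have hB : ∑ σ : K →ₐ[ℚ] ℂ, ∑ τ ∈ cls ζ ((σ ζ) ^ u), q * (Real.log (max 1 ‖τ α‖) + ε τ) =
      D * (q * (lam α + ∑ σ, ε σ)) := by
    have h3 : ∀ σ : K →ₐ[ℚ] ℂ, ∑ τ ∈ cls ζ ((σ ζ) ^ u), q * (Real.log (max 1 ‖τ α‖) + ε τ) =
        ∑ τ : K →ₐ[ℚ] ℂ, if σ ζ = (τ ζ) ^ u' then q * (Real.log (max 1 ‖τ α‖) + ε τ) else 0 := by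
      intro σ
      unfold cls
      rw [Finset.sum_filter]
      refine Finset.sum_congr rfl fun τ _ => ?_
      by_cases h : τ ζ = (σ ζ) ^ u
      · rw [if_pos h, if_pos ((hrel2 σ τ).1 h)]
      · rw [if_neg h, if_neg (fun h' => h ((hrel2 σ τ).2 h'))]
    have h4 : ∀ τ : K →ₐ[ℚ] ℂ, (∑ σ : K →ₐ[ℚ] ℂ,
        if σ ζ = (τ ζ) ^ u' then q * (Real.log (max 1 ‖τ α‖) + ε τ) else 0) =
        D * (q * (Real.log (max 1 ‖τ α‖) + ε τ)) := by
      intro τ
      rw [← Finset.sum_filter, Finset.sum_const, nsmul_eq_mul]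
      have h5 := hcard _ ((hprim τ).pow_of_coprime u' hu'c)
      unfold cls at h5
      rw [← h5]
    rw [Finset.sum_congr rfl fun σ _ => h3 σ, Finset.sum_comm, Finset.sum_congr rfl fun τ _ => h4 τ,
      ← Finset.mul_sum, ← Finset.mul_sum, Finset.sum_add_distrib]
    rfl
  rw [← hD, hlog]
  simp only [Finset.sum_add_distrib, Finset.sum_neg_distrib] at hA hB ⊢
  rw [hA, hB]
  ring

end Pool.Agent.Y429.RL
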