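import Pool.Agent.Y947.RL.Stm3
import Pool.Agent.Y65.RL.Quo

/-!
# Project RL, third group: QUO with the weaker assumptions (adapted from the module of helper65)
-/

set_option autoImplicit false

open Finset Polynomial Module Pool.Agent.H388SL Pool.Agent.Y947.DL Pool.Agent.Y947.RL

namespace Pool.Agent.Y429.RL

open Pool.Agent.Y65.RL (ev ev_eq map_ev isIntegral_ev sp_monic exists_emb)

lemma ne_self {K : Type*} [Field K] [NumberField K] {m : ℕ} {ζ α : K} (h : Ctx2 m ζ α) {p : ℕ}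
    (hp : 0 < p) (σ : K →ₐ[ℚ] ℂ) (τ : K →ₐ[ℚ] ℂ) (hτ : τ ∈ cls ζ (σ ζ)) :
    ∑ l ∈ range p, (σ α) ^ l * (τ α) ^ (p - 1 - l) ≠ 0 := by
  classical
  intro h0
  have hτ1 : τ ζ = σ ζ := by
    unfold cls at hτ
    exact (mem_filter.1 hτ).2
  by_cases hst : σ = τ
  · subst hst
    have h1 : ∑ l ∈ range p, (σ α) ^ l * (σ α) ^ (p - 1 - l) = p * (σ α) ^ (p - 1) := by
      rw [Finset.sum_congr rfl (g := fun _ => (σ α) ^ (p - 1))]
      · simp
      · intro l hl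
        rw [mem_range] at hl
        rw [← pow_add]
        congr 1
        omega
    rw [h1] at h0
    have h2 : σ α ≠ 0 := (map_ne_zero σ).mpr h.h0
    have h3 : (p : ℂ) ≠ 0 := by exact_mod_cast hp.ne'
    exact (mul_ne_zero h3 (pow_ne_zero _ h2)) h0
  · have h1 := Commute.geom_sum₂_mul (Commute.all (σ α) (τ α)) p
    rw [h0, zero_mul] at h1
    exact hst (h.gen σ τ hτ1.symm (h.inj p hp σ τ hτ1.symm (sub_eq_zero.mp h1.symm)))

theorem quo2 : S_J0 → S_TR → T_QUO := by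
  classical
  intro hJ _ K _ _ m ζ α h p hp
  refine ⟨fun σ τ hτ => ne_self h hp σ τ hτ, ?_⟩
  obtain ⟨F, hF, hF1⟩ := hJ K m ζ h.hm h.hζ α h.hα
  obtain ⟨G, _, hG1⟩ := hJ K m ζ h.hm h.hζ (α ^ p) (h.hα.pow p)
  have hQ : ∀ σ : K →ₐ[ℚ] ℂ, sp (σ ζ) ((expand ℤ[X] p G) /ₘ F) =
      ∏ τ ∈ cls ζ (σ ζ), ∑ l ∈ range p, X ^ l * C (τ α) ^ (p - 1 - l) := by
    intro σ
    have e1 : sp (σ ζ) ((expand ℤ[X] p G) /ₘ F) =
        (expand ℂ p (sp (σ ζ) G)) /ₘ (sp (σ ζ) F) := by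
      unfold sp
      rw [Polynomial.map_divByMonic _ hF, Polynomial.map_expand]
    rw [e1, ← Polynomial.mul_divByMonic_cancel_left (∏ τ ∈ cls ζ (σ ζ),
      ∑ l ∈ range p, (X : ℂ[X]) ^ l * C (τ α) ^ (p - 1 - l)) (sp_monic (σ ζ) hF)]
    congr 1
    rw [hF1, hG1, ← Finset.prod_mul_distrib, map_prod]
    refine Finset.prod_congr rfl fun τ _ => ?_
    rw [map_sub, expand_X, expand_C, map_pow, C_pow, mul_comm]
    exact (Commute.geom_sum₂_mul (Commute.all (X : ℂ[X]) (C (τ α))) p).symm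
  obtain ⟨x, hx⟩ : ∃ x, x = ev ζ α ((expand ℤ[X] p G) /ₘ F) := ⟨_, rfl⟩
  have hσ : ∀ σ : K →ₐ[ℚ] ℂ, σ x =
      ∏ τ ∈ cls ζ (σ ζ), ∑ l ∈ range p, (σ α) ^ l * (τ α) ^ (p - 1 - l) := by
    intro σ
    rw [hx, map_ev, ev_eq, hQ, eval_prod]
    refine Finset.prod_congr rfl fun τ _ => ?_
    rw [eval_finsetSum]
    simp
  have hζi : IsIntegral ℤ ζ := h.hζ.isIntegral h.hm
  have hxi : IsIntegral ℤ x := by
    rw [hx]
    exact isIntegral_ev hζi h.hα _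
  have hx0 : x ≠ 0 := by
    intro h0
    obtain ⟨σ⟩ := exists_emb K
    have h2 := hσ σ
    rw [h0, map_zero] at h2
    obtain ⟨τ, hτ, hτ0⟩ := Finset.prod_eq_zero_iff.mp h2.symm
    exact ne_self h hp σ τ hτ hτ0
  refine (one_le_prod_norm hxi hx0).trans (le_of_eq ?_)
  refine Finset.prod_congr rfl fun σ _ => ?_
  rw [hσ, norm_prod]

end Pool.Agent.Y429.RL
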