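import Pool.Agent.Y947.RL.Stm3
import Pool.Agent.Y914.RL.SLF

/-!
# Project RL, third group: SLF with the weaker assumptions (adapted from the module of helper914)
-/

set_option autoImplicit false

open Finset Polynomial Module Pool.Agent.H388SL Pool.Agent.Y947.DL Pool.Agent.Y947.RL

namespace Pool.Agent.Y429.RL

open Pool.Agent.Y914.RL.SLF (pair_ineq mem_cls sum_ite_cls sum_swap)

theorem slf2 : S_TR → T_QUO → T_SLF := by
  intro hTR hQUO K _ _ m ζ α hctx ε hε hεc p s t u hp hs ht hst hfix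
  classical
  obtain ⟨-, -, hcard⟩ := hTR K m ζ hctx.hm hctx.hζ
  obtain ⟨hq0, hq1⟩ := hQUO K m ζ α hctx p hp
  have hprim : ∀ σ : K →ₐ[ℚ] ℂ, IsPrimitiveRoot (σ ζ) m := fun σ =>
    hctx.hζ.map_of_injective σ.toRingHom.injective
  have hφ : 0 < Nat.totient m := Nat.totient_pos.mpr hctx.hm
  have hut : (u * t).Coprime m := by
    rw [Nat.Coprime, ← hst.gcd_eq]
    exact hs
  have hu : u.Coprime m := Nat.Coprime.coprime_mul_right hut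
  set D : ℝ := (finrank ℚ K : ℝ) / Nat.totient m with hD
  have hDc : ∀ σ : K →ₐ[ℚ] ℂ, ((cls ζ (σ ζ)).card : ℝ) = D := by
    intro σ
    rw [hD, eq_div_iff (by exact_mod_cast hφ.ne')]
    exact_mod_cast hcard (σ ζ) (hprim σ)
  -- the relation
  have hrel : ∀ σ τ : K →ₐ[ℚ] ℂ, (σ ζ) ^ s = (τ ζ) ^ t ↔ τ ζ = (σ ζ) ^ u := by
    intro σ τ
    have e1 : (σ ζ) ^ s = ((σ ζ) ^ u) ^ t := by
      rw [← pow_mul]
      exact pow_eq_pow_of_modEq hst (hprim σ).pow_eq_one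
    rw [e1]
    constructor
    · intro h
      -- raise to the inverse of `t`
      obtain ⟨v, hv⟩ : ∃ v : ℕ, t * v ≡ 1 [MOD m] := by
        rcases Nat.lt_or_ge 1 m with h1 | h1
        · obtain ⟨v, -, hv⟩ := Nat.exists_mul_mod_eq_one_of_coprime ht h1
          exact ⟨v, by rw [Nat.ModEq, hv, Nat.mod_eq_of_lt h1]⟩
        · have : m = 1 := le_antisymm h1 hctx.hm
          subst this
          exact ⟨1, Nat.modEq_one⟩
      have h1 : (((σ ζ) ^ u) ^ t) ^ v = ((τ ζ) ^ t) ^ v := by rw [h]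
      rw [← pow_mul ((σ ζ) ^ u) t v, ← pow_mul (τ ζ) t v] at h1
      have h2 : ∀ x : ℂ, x ^ m = 1 → x ^ (t * v) = x := by
        intro x hx
        conv_rhs => rw [← pow_one x]
        exact pow_eq_pow_of_modEq hv hx
      rw [h2, h2] at h1
      · exact h1.symm
      · exact (hprim τ).pow_eq_one
      · rw [← pow_mul, mul_comm, pow_mul, (hprim σ).pow_eq_one, one_pow]
    · intro h
      rw [h]
  have hEP1 : EP ζ α ε 1 1 1 1 = ∑ σ : K →ₐ[ℚ] ℂ, ∑ τ ∈ cls ζ (σ ζ),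
      -Real.log ‖1 - ww α ε σ ^ 1 * starRingEnd ℂ (ww α ε τ ^ 1)‖ := by
    unfold EP
    refine Finset.sum_congr rfl fun σ _ => ?_
    refine sum_ite_cls ζ _ (σ ζ) _ fun τ => ?_
    rw [pow_one, pow_one]
    exact eq_comm
  choose b hb1 hb2 using hfix
  have hwb : ∀ τ : K →ₐ[ℚ] ℂ, ww α ε (b τ) = ww α ε τ := by
    intro τ
    unfold ww
    rw [hb2 τ, hεc _ _ (hb2 τ)]
  have hEPp : EP ζ α ε p p s t = ∑ σ : K →ₐ[ℚ] ℂ, ∑ τ ∈ cls ζ (σ ζ),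
      -Real.log ‖1 - ww α ε σ ^ p * starRingEnd ℂ (ww α ε τ ^ p)‖ := by
    unfold EP
    refine Finset.sum_congr rfl fun σ _ => ?_
    rw [sum_ite_cls ζ _ ((σ ζ) ^ u) _ fun τ => hrel σ τ]
    have hinj : Set.InjOn b (cls ζ (σ ζ) : Set (K →ₐ[ℚ] ℂ)) := by
      intro τ hτ τ' hτ' h
      rw [Finset.mem_coe, mem_cls] at hτ hτ'
      apply hctx.gen
      · rw [hτ, hτ']
      · rw [← hb2 τ, ← hb2 τ', h]
    have himg : (cls ζ (σ ζ)).image b = cls ζ ((σ ζ) ^ u) := by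
      apply Finset.eq_of_subset_of_card_le
      · intro τ hτ
        obtain ⟨τ', hτ', rfl⟩ := Finset.mem_image.mp hτ
        rw [mem_cls] at hτ' ⊢
        rw [hb1, hτ']
      · rw [Finset.card_image_of_injOn hinj]
        have h1 := hcard (σ ζ) (hprim σ)
        have h2 := hcard ((σ ζ) ^ u) ((hprim σ).pow_of_coprime u hu)
        rw [← h1] at h2
        exact (Nat.eq_of_mul_eq_mul_right hφ h2).le
    rw [← himg, Finset.sum_image hinj]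
    refine Finset.sum_congr rfl fun τ _ => ?_
    rw [hwb τ]
  -- the pair inequality
  have h1 : ∀ σ : K →ₐ[ℚ] ℂ, ∀ τ ∈ cls ζ (σ ζ),
      -Real.log ‖1 - ww α ε σ ^ p * starRingEnd ℂ (ww α ε τ ^ p)‖ ≤
      -Real.log ‖1 - ww α ε σ ^ 1 * starRingEnd ℂ (ww α ε τ ^ 1)‖ +
        (-Real.log ‖∑ l ∈ range p, (τ α) ^ l * (σ α) ^ (p - 1 - l)‖ +
          p * (Real.log (max 1 ‖σ α‖) + Real.log (max 1 ‖τ α‖) + (ε σ + ε τ))) := by
    intro σ τ hτ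
    refine pair_ineq hε hp σ τ ?_
    refine hq0 τ σ ?_
    rw [mem_cls] at hτ ⊢
    exact hτ.symm
  have h2 : EP ζ α ε p p s t ≤ EP ζ α ε 1 1 1 1 +
      (∑ σ : K →ₐ[ℚ] ℂ, ∑ τ ∈ cls ζ (σ ζ), -Real.log ‖∑ l ∈ range p, (τ α) ^ l * (σ α) ^ (p - 1 - l)‖ +
      ∑ σ : K →ₐ[ℚ] ℂ, ∑ τ ∈ cls ζ (σ ζ),
        (p:ℝ) * (Real.log (max 1 ‖σ α‖) + Real.log (max 1 ‖τ α‖) + (ε σ + ε τ))) := by
    rw [hEPp, hEP1]
    refine (Finset.sum_le_sum fun σ _ => Finset.sum_le_sum fun τ hτ => h1 σ τ hτ).trans (le_of_eq ?_)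
    simp only [Finset.sum_add_distrib]
  have e3 : ∑ σ : K →ₐ[ℚ] ℂ, ∑ τ ∈ cls ζ (σ ζ),
      -Real.log ‖∑ l ∈ range p, (τ α) ^ l * (σ α) ^ (p - 1 - l)‖ ≤ 0 := by
    rw [sum_swap ζ fun σ τ => -Real.log ‖∑ l ∈ range p, (τ α) ^ l * (σ α) ^ (p - 1 - l)‖]
    have h3 := Real.log_nonneg hq1
    rw [Real.log_prod] at h3
    · have e4 : ∀ σ : K →ₐ[ℚ] ℂ,
          Real.log (∏ τ ∈ cls ζ (σ ζ), ‖∑ l ∈ range p, (σ α) ^ l * (τ α) ^ (p - 1 - l)‖) =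
          ∑ τ ∈ cls ζ (σ ζ), Real.log ‖∑ l ∈ range p, (σ α) ^ l * (τ α) ^ (p - 1 - l)‖ := fun σ =>
        Real.log_prod fun τ hτ => norm_ne_zero_iff.mpr (hq0 σ τ hτ)
      simp only [e4] at h3
      simp only [Finset.sum_neg_distrib]
      linarith
    · intro σ _
      exact Finset.prod_ne_zero_iff.mpr fun τ hτ => norm_ne_zero_iff.mpr (hq0 σ τ hτ)
  have e6 : ∀ f : (K →ₐ[ℚ] ℂ) → ℝ, ∑ σ : K →ₐ[ℚ] ℂ, ∑ τ ∈ cls ζ (σ ζ), f σ = D * ∑ σ, f σ := by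
    intro f
    rw [Finset.mul_sum]
    refine Finset.sum_congr rfl fun σ _ => ?_
    rw [Finset.sum_const, nsmul_eq_mul, hDc]
  have e7 : ∀ f : (K →ₐ[ℚ] ℂ) → ℝ, ∑ σ : K →ₐ[ℚ] ℂ, ∑ τ ∈ cls ζ (σ ζ), f τ = D * ∑ σ, f σ := by
    intro f
    rw [sum_swap ζ fun _ τ => f τ, e6 f]
  have e5 : ∑ σ : K →ₐ[ℚ] ℂ, ∑ τ ∈ cls ζ (σ ζ),
      (p:ℝ) * (Real.log (max 1 ‖σ α‖) + Real.log (max 1 ‖τ α‖) + (ε σ + ε τ)) =
      D * (2 * p * (lam α + ∑ σ, ε σ)) := by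
    have a1 := e6 fun σ => Real.log (max 1 ‖σ α‖)
    have a2 := e7 fun σ => Real.log (max 1 ‖σ α‖)
    have a3 := e6 ε
    have a4 := e7 ε
    simp only [← Finset.mul_sum, Finset.sum_add_distrib]
    rw [a1, a2, a3, a4]
    unfold lam
    ring
  rw [e5] at h2
  linarith

end Pool.Agent.Y429.RL
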